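import Pool.Agent.Lib.MP_688fd0_co.TE.Iface3

/-!
# Theorem E, module RLAW: the transport law (3.6) and its marginal bounds
-/

set_option linter.unusedSectionVars false

namespace Pool.Agent.Lib.MP_688fd0_co.TE.H67

open Pool.Agent.Lib.MP_688fd0_co.TE

universe u v

section sumL

variable {S : Type*} [Fintype S]

theorem sumL_add (m n : ℕ) (F : List S → ℝ) :
    sumL (m + n) F = sumL m (fun l => sumL n (fun l' => F (l ++ l'))) := by
  induction m generalizing F with
  | zero => simp [sumL]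
  | succ m ih =>
    have h : m + 1 + n = (m + n) + 1 := by omega
    rw [h]
    simp only [sumL, ih, List.cons_append]

theorem sumL_mono (n : ℕ) (F H : List S → ℝ) (h : ∀ l, l.length = n → F l ≤ H l) :
    sumL n F ≤ sumL n H := by
  induction n generalizing F H with
  | zero => exact h [] rfl
  | succ n ih =>
    refine Finset.sum_le_sum fun s _ => ?_
    exact ih _ _ fun l hl => h (s :: l) (by simp [hl])

theorem sumL_congr (n : ℕ) (F H : List S → ℝ) (h : ∀ l, l.length = n → F l = H l) :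
    sumL n F = sumL n H := by
  induction n generalizing F H with
  | zero => exact h [] rfl
  | succ n ih =>
    refine Finset.sum_congr rfl fun s _ => ?_
    exact ih _ _ fun l hl => h (s :: l) (by simp [hl])

theorem sumL_mul (n : ℕ) (c : ℝ) (F : List S → ℝ) :
    sumL n (fun l => c * F l) = c * sumL n F := by
  induction n generalizing F with
  | zero => rfl
  | succ n ih =>
    simp only [sumL, ih, Finset.mul_sum]

theorem sumL_zero (n : ℕ) : sumL n (fun _ : List S => (0 : ℝ)) = 0 := by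
  have h := sumL_mul n 0 (fun _ : List S => (0 : ℝ))
  simpa using h

theorem sumL_nonneg (n : ℕ) (F : List S → ℝ) (h : ∀ l, l.length = n → 0 ≤ F l) :
    0 ≤ sumL n F := by
  have h1 := sumL_mono n (fun _ : List S => (0 : ℝ)) F h
  rwa [sumL_zero] at h1

theorem sumL_sum {κ : Type*} (s : Finset κ) (n : ℕ) (F : κ → List S → ℝ) :
    sumL n (fun l => ∑ i ∈ s, F i l) = ∑ i ∈ s, sumL n (F i) := by
  induction n generalizing F with
  | zero => rfl
  | succ n ih =>
    simp only [sumL, ih]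
    rw [Finset.sum_comm]

theorem sumL_comm (m n : ℕ) (F : List S → List S → ℝ) :
    sumL m (fun l => sumL n (fun l' => F l l')) = sumL n (fun l' => sumL m (fun l => F l l')) := by
  induction m generalizing F with
  | zero => rfl
  | succ m ih =>
    simp only [sumL]
    rw [sumL_sum]
    exact Finset.sum_congr rfl fun s _ => ih _

end sumL

section

variable {V : Type u} {Val : Type v} [Fintype V] [Fintype Val] [DecidableEq V] {a : ℕ} (M : LM V Val a)
  (ω : Fld a V Val)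

/-- labelled weight of the list `l` at the slots `j, ...` from the exit vertex `v`, ending with the
function `H` of the last exit vertex -/
noncomputable def ww : ℕ → V → List (V × Val) → (V → ℝ) → ℝ
  | _, v, [], H => H v
  | j, v, s :: l, H => M.C j v s.1 * M.lw ω j s.1 s.2 * ww (j + 1) (M.ex s.1 s.2) l H

/-- the same with an entry function -/
noncomputable def vv (i : ℕ) (F : V → ℝ) : List (V × Val) → (V → ℝ) → ℝ
  | [], _ => 0
  | s :: l, H => F s.1 * M.lw ω i s.1 s.2 * ww M ω (i + 1) (M.ex s.1 s.2) l H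

theorem lw_nonneg (j : ℕ) (u : V) (e : Val) : 0 ≤ M.lw ω j u e :=
  mul_nonneg (M.hk0 _ _ _) (div_nonneg (ind_nonneg _) (M.hP0 _ _))

theorem pw_xw (l : List (V × Val)) (j : ℕ) (v y : V) :
    M.pw j v l y * M.xw ω j l = ww M ω j v l (fun w => M.C (j + l.length) w y) := by
  induction l generalizing j v with
  | nil => simp [LM.pw, LM.xw, ww]
  | cons s l ih =>
    have h := ih (j + 1) (M.ex s.1 s.2)
    have e : j + (s :: l).length = j + 1 + l.length := by simp only [List.length_cons]; omega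
    rw [LM.pw, LM.xw, ww, e, ← h, LM.lw]
    ring

theorem ww_nonneg (H : V → ℝ) (hH : ∀ w, 0 ≤ H w) (l : List (V × Val)) (j : ℕ) (v : V) :
    0 ≤ ww M ω j v l H := by
  induction l generalizing j v with
  | nil => exact hH v
  | cons s l ih =>
    exact mul_nonneg (mul_nonneg (M.hC0 _ _ _) (lw_nonneg M ω _ _ _)) (ih _ _)

theorem ww_append (l l' : List (V × Val)) (H : V → ℝ) (j : ℕ) (v : V) :
    ww M ω j v (l ++ l') H = ww M ω j v l (fun w => ww M ω (j + l.length) w l' H) := by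
  induction l generalizing j v with
  | nil => simp [ww]
  | cons s l ih =>
    have e : j + (s :: l).length = j + 1 + l.length := by simp only [List.length_cons]; omega
    rw [List.cons_append, ww, ww, e, ih]

theorem ww_last (l : List (V × Val)) (s : V × Val) (H : V → ℝ) (j : ℕ) (v : V) :
    ww M ω j v (l ++ [s]) H = ww M ω j v (l ++ [s]) (fun _ => 1) * H (M.ex s.1 s.2) := by
  induction l generalizing j v with
  | nil => simp [ww]
  | cons s' l ih =>
    rw [List.cons_append, ww, ww, ih]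
    ring

theorem Gn_eq (H : V → ℝ) (n j : ℕ) (v : V) :
    M.Gn ω H n j v = sumL n (fun l => ww M ω j v l H) := by
  induction n generalizing j v with
  | zero => rfl
  | succ n ih =>
    rw [LM.Gn, LM.Gop, sumL]
    rw [Fintype.sum_prod_type]
    refine Finset.sum_congr rfl fun u _ => Finset.sum_congr rfl fun e _ => ?_
    rw [ih, ← sumL_mul]
    rfl

theorem Fn_shift (F : V → ℝ) (i n : ℕ) :
    M.Fn ω i F (n + 1) = M.Fn ω (i + 1) (M.Top ω i F) n := by
  induction n with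
  | zero => rfl
  | succ n ih =>
    have e : i + (n + 1) = i + 1 + n := by omega
    rw [LM.Fn, ih, e]
    rfl

/-- the main identity: sum over the lists with a function of the tail -/
theorem sum_vv (H : V → ℝ) (Φ : List (V × Val) → ℝ) (N n1 i : ℕ) (F : V → ℝ) :
    sumL (n1 + 1 + N) (fun z => vv M ω i F z H * Φ (z.drop n1)) =
      ∑ s : V × Val, M.Fn ω i F n1 s.1 * M.lw ω (i + n1) s.1 s.2 *
        sumL N (fun l => ww M ω (i + n1 + 1) (M.ex s.1 s.2) l H * Φ (s :: l)) := by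
  induction n1 generalizing i F with
  | zero =>
    have e : 0 + 1 + N = N + 1 := by omega
    rw [e, sumL]
    refine Finset.sum_congr rfl fun s _ => ?_
    rw [← sumL_mul]
    refine sumL_congr _ _ _ fun l _ => ?_
    simp only [vv, List.drop_zero, LM.Fn, Nat.add_zero]
    ring
  | succ n1 ih =>
    have e : n1 + 1 + 1 + N = (n1 + 1 + N) + 1 := by omega
    have e2 : i + (n1 + 1) = i + 1 + n1 := by omega
    rw [e, sumL, ← sumL_sum, Fn_shift, e2, ← ih]
    refine sumL_congr _ _ _ fun z hz => ?_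
    obtain ⟨s1, l, rfl⟩ : ∃ s1 l, z = s1 :: l := by
      cases z with
      | nil => simp at hz; omega
      | cons s1 l => exact ⟨s1, l, rfl⟩
    simp only [List.drop_succ_cons]
    rw [← Finset.sum_mul]
    congr 1
    rw [vv, LM.Top, Finset.sum_mul, Finset.sum_mul, Fintype.sum_prod_type]
    refine Finset.sum_congr rfl fun u _ => ?_
    rw [Finset.sum_mul, Finset.sum_mul]
    refine Finset.sum_congr rfl fun e' _ => ?_
    rw [vv, ww]
    ring

theorem sum_one (H : V → ℝ) (N n1 i : ℕ) (F : V → ℝ) (s : V × Val) :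
    sumL (n1 + 1 + N) (fun z => vv M ω i F z H * ind (z[n1]? = some s)) =
      M.Fn ω i F n1 s.1 * M.lw ω (i + n1) s.1 s.2 *
        M.Gn ω H N (i + n1 + 1) (M.ex s.1 s.2) := by
  classical
  have h := sum_vv M ω H (fun z => ind (z[0]? = some s)) N n1 i F
  have h1 : ∀ z : List (V × Val), (z.drop n1)[0]? = z[n1]? := fun z => by simp
  simp only [h1] at h
  rw [h, Finset.sum_eq_single s]
  · rw [Gn_eq]
    congr 1
    refine sumL_congr _ _ _ fun l _ => ?_
    rw [ind_of (by simp), mul_one]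
  · intro s' _ hs'
    have h2 : ∀ l : List (V × Val), ind ((s' :: l)[0]? = some s) = 0 := fun l =>
      ind_not (by simpa using hs')
    simp only [h2, mul_zero, sumL_zero]
  · intro h; exact absurd (Finset.mem_univ _) h

theorem sum_two (H : V → ℝ) (N n1 i : ℕ) (F : V → ℝ) (s s' : V × Val) :
    sumL (n1 + 2 + N) (fun z => vv M ω i F z H * ind (z[n1]? = some s ∧ z[n1 + 1]? = some s')) =
      M.Fn ω i F n1 s.1 * M.lw ω (i + n1) s.1 s.2 *
        M.C (i + n1 + 1) (M.ex s.1 s.2) s'.1 * M.lw ω (i + n1 + 1) s'.1 s'.2 *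
        M.Gn ω H N (i + n1 + 2) (M.ex s'.1 s'.2) := by
  classical
  have h := sum_vv M ω H (fun z => ind (z[0]? = some s ∧ z[1]? = some s')) (N + 1) n1 i F
  have h1 : ∀ z : List (V × Val), (z.drop n1)[0]? = z[n1]? := fun z => by simp
  have h1' : ∀ z : List (V × Val), (z.drop n1)[1]? = z[n1 + 1]? := fun z => by simp
  simp only [h1, h1'] at h
  have e : n1 + 2 + N = n1 + 1 + (N + 1) := by omega
  rw [e, h, Finset.sum_eq_single s]
  · have h3 : sumL (N + 1) (fun l => ww M ω (i + n1 + 1) (M.ex s.1 s.2) l H *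
        ind ((s :: l)[0]? = some s ∧ (s :: l)[1]? = some s')) =
        M.C (i + n1 + 1) (M.ex s.1 s.2) s'.1 * M.lw ω (i + n1 + 1) s'.1 s'.2 *
        M.Gn ω H N (i + n1 + 2) (M.ex s'.1 s'.2) := by
      rw [sumL, Finset.sum_eq_single s']
      · rw [Gn_eq, ← sumL_mul]
        refine sumL_congr _ _ _ fun l _ => ?_
        rw [ind_of (by simp), mul_one, ww]
      · intro s1 _ hs1
        have h2 : ∀ l : List (V × Val), ind ((s :: s1 :: l)[0]? = some s ∧
            (s :: s1 :: l)[1]? = some s') = 0 := fun l =>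
          ind_not (fun h => hs1 (by simpa using h.2))
        simp only [h2, mul_zero, sumL_zero]
      · intro h; exact absurd (Finset.mem_univ _) h
    rw [h3]
    ring
  · intro s1 _ hs1
    have h2 : ∀ l : List (V × Val), ind ((s1 :: l)[0]? = some s ∧ (s1 :: l)[1]? = some s') = 0 :=
      fun l => ind_not (fun h => hs1 (by simpa using h.1))
    simp only [h2, mul_zero, sumL_zero]
  · intro h; exact absurd (Finset.mem_univ _) h

end

section main

variable {V : Type u} {Val : Type v} [Fintype V] [Fintype Val] [DecidableEq V] {a : ℕ} (M : LM V Val a)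
  {T : ℕ} (W : V → Prop) (ω : Fin T → Fld a V Val) (t : Fin T) (x y : V) (Λ : ℝ)

/-- front part: functions of the first `jc + 1` sites -/
theorem front (hΛ : 0 ≤ Λ) (Φ : List (V × Val) → ℝ) (h0 : ∀ z, 0 ≤ Φ z)
    (h1 : ∀ z l, z.length = M.jc + 1 → Φ (z ++ l) = Φ z) :
    sumL a (fun z => M.pw 0 x z y * M.xw (ω t) 0 z * ind (M.good ω W Λ t x y z) * Φ z) ≤
      Λ * sumL (M.jc + 1) (fun z => vv M (ω t) 0 (M.C 0 x) z (fun _ => 1) * Φ z) := by
  have ha : a = (M.jc + 1) + (a - M.jc - 1) := by have := M.hjc; omega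
  have e0 : sumL a (fun z => M.pw 0 x z y * M.xw (ω t) 0 z * ind (M.good ω W Λ t x y z) * Φ z) =
      sumL ((M.jc + 1) + (a - M.jc - 1)) (fun z => M.pw 0 x z y * M.xw (ω t) 0 z *
        ind (M.good ω W Λ t x y z) * Φ z) := by rw [← ha]
  rw [e0, sumL_add, ← sumL_mul]
  refine sumL_mono _ _ _ fun z hz => ?_
  obtain ⟨z0, s, rfl⟩ : ∃ z0 s, z = z0 ++ [s] := by
    rcases List.eq_nil_or_concat z with h | ⟨z0, s, h⟩
    · rw [h] at hz; simp at hz
    · exact ⟨z0, s, by rw [h, List.concat_eq_append]⟩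
  have hz0 : z0.length = M.jc := by simpa using hz
  set cf : ℝ := ww M (ω t) 0 x (z0 ++ [s]) (fun _ => 1) with hcf
  have hcf0 : 0 ≤ cf := ww_nonneg M (ω t) _ (fun _ => zero_le_one) _ _ _
  have hvv : vv M (ω t) 0 (M.C 0 x) (z0 ++ [s]) (fun _ => 1) = cf := by
    rw [hcf]
    cases z0 with
    | nil => rfl
    | cons s0 z0 => rfl
  rw [hvv]
  have h2 : ∀ l : List (V × Val), l.length = a - M.jc - 1 →
      M.pw 0 x (z0 ++ [s] ++ l) y * M.xw (ω t) 0 (z0 ++ [s] ++ l) *
        ind (M.good ω W Λ t x y (z0 ++ [s] ++ l)) * Φ (z0 ++ [s] ++ l) ≤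
      (cf * Φ (z0 ++ [s]) * ind (M.ZY (ω t) (M.ex s.1 s.2) y ≤ Λ)) *
        (M.pw (M.jc + 1) (M.ex s.1 s.2) l y * M.xw (ω t) (M.jc + 1) l) := by
    intro l hl
    have hlen : 0 + (z0 ++ [s] ++ l).length = a := by
      rw [List.length_append, hz, hl]; omega
    have hlen2 : M.jc + 1 + l.length = a := by rw [hl]; omega
    rw [h1 _ l hz, pw_xw, pw_xw, ww_append, hlen, hlen2, ww_last, hz, Nat.zero_add, ← hcf]
    have h3 : ind (M.good ω W Λ t x y (z0 ++ [s] ++ l)) ≤
        ind (M.ZY (ω t) (M.ex s.1 s.2) y ≤ Λ) := by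
      refine ind_mono fun hg => ?_
      refine (hg.2 s ?_).2
      rw [List.append_assoc, List.getElem?_append_right (by omega)]
      simp [hz0]
    have h4 : 0 ≤ ww M (ω t) (M.jc + 1) (M.ex s.1 s.2) l (fun w => M.C a w y) :=
      ww_nonneg M (ω t) _ (fun w => M.hC0 _ _ _) _ _ _
    calc cf * ww M (ω t) (M.jc + 1) (M.ex s.1 s.2) l (fun w => M.C a w y) *
          ind (M.good ω W Λ t x y (z0 ++ [s] ++ l)) * Φ (z0 ++ [s])
        = (cf * ww M (ω t) (M.jc + 1) (M.ex s.1 s.2) l (fun w => M.C a w y) *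
          Φ (z0 ++ [s])) * ind (M.good ω W Λ t x y (z0 ++ [s] ++ l)) := by ring
      _ ≤ (cf * ww M (ω t) (M.jc + 1) (M.ex s.1 s.2) l (fun w => M.C a w y) *
          Φ (z0 ++ [s])) * ind (M.ZY (ω t) (M.ex s.1 s.2) y ≤ Λ) :=
        mul_le_mul_of_nonneg_left h3 (mul_nonneg (mul_nonneg hcf0 h4) (h0 _))
      _ = _ := by ring
  refine (sumL_mono _ _ _ h2).trans ?_
  rw [sumL_mul]
  change (cf * Φ (z0 ++ [s]) * ind (M.ZY (ω t) (M.ex s.1 s.2) y ≤ Λ)) *
    M.ZY (ω t) (M.ex s.1 s.2) y ≤ Λ * (cf * Φ (z0 ++ [s]))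
  have h5 : ind (M.ZY (ω t) (M.ex s.1 s.2) y ≤ Λ) * M.ZY (ω t) (M.ex s.1 s.2) y ≤ Λ := by
    by_cases h : M.ZY (ω t) (M.ex s.1 s.2) y ≤ Λ
    · rw [ind_of h, one_mul]; exact h
    · rw [ind_not h, zero_mul]; exact hΛ
  have h6 := mul_le_mul_of_nonneg_left h5 (mul_nonneg hcf0 (h0 (z0 ++ [s])))
  calc _ = cf * Φ (z0 ++ [s]) * (ind (M.ZY (ω t) (M.ex s.1 s.2) y ≤ Λ) *
        M.ZY (ω t) (M.ex s.1 s.2) y) := by ring
    _ ≤ _ := h6
    _ = _ := by ring

/-- back part: functions of the sites at the slots `jc, ..., a - 1` -/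
theorem back (hΛ : 0 ≤ Λ) (Φ Ψ : List (V × Val) → ℝ) (h0 : ∀ z, 0 ≤ Ψ z)
    (h1 : ∀ z l, z.length = M.jc → Φ (z ++ l) = Ψ l) :
    sumL a (fun z => M.pw 0 x z y * M.xw (ω t) 0 z * ind (M.good ω W Λ t x y z) * Φ z) ≤
      Λ * sumL (a - M.jc) (fun z => vv M (ω t) M.jc (fun _ => 1) z (fun v => M.C a v y) *
        Ψ z) := by
  have ha : a = M.jc + (a - M.jc) := by have := M.hjc; omega
  have e0 : sumL a (fun z => M.pw 0 x z y * M.xw (ω t) 0 z * ind (M.good ω W Λ t x y z) * Φ z) =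
      sumL (M.jc + (a - M.jc)) (fun z => M.pw 0 x z y * M.xw (ω t) 0 z *
        ind (M.good ω W Λ t x y z) * Φ z) := by rw [← ha]
  rw [e0, sumL_add, sumL_comm, ← sumL_mul]
  refine sumL_mono _ _ _ fun z hz => ?_
  obtain ⟨s, l, rfl⟩ : ∃ s l, z = s :: l := by
    cases z with
    | nil => have := M.hjc; simp at hz; omega
    | cons s l => exact ⟨s, l, rfl⟩
  set cf : ℝ := vv M (ω t) M.jc (fun _ => 1) (s :: l) (fun v => M.C a v y) with hcf
  have hcf0 : 0 ≤ cf := by
    rw [hcf, vv, one_mul]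
    exact mul_nonneg (lw_nonneg _ _ _ _ _) (ww_nonneg M (ω t) _ (fun w => M.hC0 _ _ _) _ _ _)
  have h2 : ∀ z1 : List (V × Val), z1.length = M.jc →
      M.pw 0 x (z1 ++ s :: l) y * M.xw (ω t) 0 (z1 ++ s :: l) *
        ind (M.good ω W Λ t x y (z1 ++ s :: l)) * Φ (z1 ++ s :: l) ≤
      (cf * Ψ (s :: l) * ind (M.ZX (ω t) x s.1 ≤ Λ)) *
        (M.pw 0 x z1 s.1 * M.xw (ω t) 0 z1) := by
    intro z1 hz1
    have hlen : 0 + (z1 ++ s :: l).length = a := by
      rw [List.length_append, hz1, hz]; omega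
    have hw : ∀ w, ww M (ω t) M.jc w (s :: l) (fun w => M.C a w y) = cf * M.C M.jc w s.1 := by
      intro w
      rw [ww, hcf, vv]
      ring
    have hc : ∀ (l' : List (V × Val)) (j : ℕ) (v : V) (c : ℝ) (H : V → ℝ),
        ww M (ω t) j v l' (fun w => c * H w) = c * ww M (ω t) j v l' H := by
      intro l'
      induction l' with
      | nil => intro j v c H; rfl
      | cons s' l' ih => intro j v c H; rw [ww, ww, ih]; ring
    rw [h1 _ _ hz1, pw_xw, pw_xw, ww_append, hlen, hz1, Nat.zero_add]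
    simp only [hw]
    rw [hc]
    have h3 : ind (M.good ω W Λ t x y (z1 ++ s :: l)) ≤ ind (M.ZX (ω t) x s.1 ≤ Λ) := by
      refine ind_mono fun hg => ?_
      refine (hg.2 s ?_).1
      rw [List.getElem?_append_right (by omega)]
      simp [hz1]
    have h4 : 0 ≤ ww M (ω t) 0 x z1 (fun w => M.C M.jc w s.1) :=
      ww_nonneg M (ω t) _ (fun w => M.hC0 _ _ _) _ _ _
    calc cf * ww M (ω t) 0 x z1 (fun w => M.C M.jc w s.1) *
          ind (M.good ω W Λ t x y (z1 ++ s :: l)) * Ψ (s :: l)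
        = (cf * ww M (ω t) 0 x z1 (fun w => M.C M.jc w s.1) * Ψ (s :: l)) *
          ind (M.good ω W Λ t x y (z1 ++ s :: l)) := by ring
      _ ≤ (cf * ww M (ω t) 0 x z1 (fun w => M.C M.jc w s.1) * Ψ (s :: l)) *
          ind (M.ZX (ω t) x s.1 ≤ Λ) :=
        mul_le_mul_of_nonneg_left h3 (mul_nonneg (mul_nonneg hcf0 h4) (h0 _))
      _ = _ := by ring
  refine (sumL_mono _ _ _ h2).trans ?_
  rw [sumL_mul]
  change (cf * Ψ (s :: l) * ind (M.ZX (ω t) x s.1 ≤ Λ)) * M.ZX (ω t) x s.1 ≤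
    Λ * (cf * Ψ (s :: l))
  have h5 : ind (M.ZX (ω t) x s.1 ≤ Λ) * M.ZX (ω t) x s.1 ≤ Λ := by
    by_cases h : M.ZX (ω t) x s.1 ≤ Λ
    · rw [ind_of h, one_mul]; exact h
    · rw [ind_not h, zero_mul]; exact hΛ
  have h6 := mul_le_mul_of_nonneg_left h5 (mul_nonneg hcf0 (h0 (s :: l)))
  calc _ = cf * Ψ (s :: l) * (ind (M.ZX (ω t) x s.1 ≤ Λ) * M.ZX (ω t) x s.1) := by ring
    _ ≤ _ := h6
    _ = _ := by ring

/-- division by `Zg` -/
theorem R_le {X q : ℝ} (hX : 1 ≤ X) (hq : 0 < q) (hf : (9 / 10 : ℝ) * q ≤ M.fk 0 a x y)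
    (hZ : M.fk 0 a x y / 4 ≤ M.Zg ω W (X ^ 5 * q) t x y) (Φ : List (V × Val) → ℝ) (E : ℝ)
    (hE : 0 ≤ E)
    (h : sumL a (fun z => M.pw 0 x z y * M.xw (ω t) 0 z *
      ind (M.good ω W (X ^ 5 * q) t x y z) * Φ z) ≤ X ^ 5 * q * E) :
    sumL a (fun z => M.R ω W (X ^ 5 * q) t x y z * Φ z) ≤ 5 * X ^ 5 * E := by
  have hZ0 : 0 < M.Zg ω W (X ^ 5 * q) t x y := by linarith
  have e : ∀ z, M.R ω W (X ^ 5 * q) t x y z * Φ z = (M.Zg ω W (X ^ 5 * q) t x y)⁻¹ *
      (M.pw 0 x z y * M.xw (ω t) 0 z * ind (M.good ω W (X ^ 5 * q) t x y z) * Φ z) := by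
    intro z
    rw [LM.R]
    field_simp
  simp only [e]
  rw [sumL_mul, inv_mul_le_iff₀ hZ0]
  refine h.trans ?_
  have hX5 : (0 : ℝ) ≤ X ^ 5 := by positivity
  have h1 : q ≤ 5 * M.Zg ω W (X ^ 5 * q) t x y := by linarith
  have h2 := mul_le_mul_of_nonneg_left h1 (mul_nonneg hX5 hE)
  calc X ^ 5 * q * E = X ^ 5 * E * q := by ring
    _ ≤ X ^ 5 * E * (5 * M.Zg ω W (X ^ 5 * q) t x y) := h2
    _ = _ := by ring

theorem Gn_nonneg (ω : Fld a V Val) (H : V → ℝ) (hH : ∀ w, 0 ≤ H w) (n j : ℕ) (v : V) :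
    0 ≤ M.Gn ω H n j v := by
  rw [Gn_eq]
  exact sumL_nonneg _ _ fun l _ => ww_nonneg M ω H hH _ _ _

theorem Fn_nonneg (ω : Fld a V Val) (F : V → ℝ) (hF : ∀ w, 0 ≤ F w) (i n : ℕ) (v : V) :
    0 ≤ M.Fn ω i F n v := by
  induction n generalizing v with
  | zero => exact hF v
  | succ n ih =>
    exact Finset.sum_nonneg fun u _ => Finset.sum_nonneg fun e _ =>
      mul_nonneg (mul_nonneg (ih u) (lw_nonneg _ _ _ _ _)) (M.hC0 _ _ _)

end main

/-- Module RLAW. -/
theorem rlaw : RLAW_S.{u, v} := by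
  intro V Val _ _ _ a M X q T W ω t x y hX hq hf hZ
  have hZ0 : 0 < M.Zg ω W (X ^ 5 * q) t x y := by linarith
  have hΛ : 0 ≤ X ^ 5 * q := by positivity
  have hjc := M.hjc
  refine ⟨?_, ?_, ?_, ?_, ?_, ?_, ?_⟩
  · intro z
    refine div_nonneg (mul_nonneg ?_ (ind_nonneg _)) hZ0.le
    rw [pw_xw]
    exact ww_nonneg M (ω t) _ (fun w => M.hC0 _ _ _) _ _ _
  · have e : ∀ z, M.R ω W (X ^ 5 * q) t x y z = (M.Zg ω W (X ^ 5 * q) t x y)⁻¹ *
        (M.pw 0 x z y * M.xw (ω t) 0 z * ind (M.good ω W (X ^ 5 * q) t x y z)) := by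
      intro z
      rw [LM.R]
      field_simp
    have e1 : M.R ω W (X ^ 5 * q) t x y = fun z => (M.Zg ω W (X ^ 5 * q) t x y)⁻¹ *
        (M.pw 0 x z y * M.xw (ω t) 0 z * ind (M.good ω W (X ^ 5 * q) t x y z)) := funext e
    rw [e1, sumL_mul]
    exact inv_mul_cancel₀ hZ0.ne'
  · intro z _ hz
    have h1 : M.pw 0 x z y * M.xw (ω t) 0 z * ind (M.good ω W (X ^ 5 * q) t x y z) ≠ 0 := by
      intro h
      apply hz
      rw [LM.R, h, zero_div]
    have h2 : ind (M.good ω W (X ^ 5 * q) t x y z) ≠ 0 := right_ne_zero_of_mul h1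
    have h3 := left_ne_zero_of_mul h1
    refine ⟨?_, left_ne_zero_of_mul h3, right_ne_zero_of_mul h3⟩
    by_contra hg
    exact h2 (ind_not hg)
  · intro j s hj
    have h1 := front M W ω t x y (X ^ 5 * q) hΛ (fun z => ind (z[j]? = some s))
      (fun z => ind_nonneg _) (fun z l hz => by
        rw [List.getElem?_append_left (by omega)])
    have e : M.jc + 1 = j + 1 + (M.jc - j) := by omega
    rw [e, sum_one, Nat.zero_add] at h1
    have h2 := R_le M W ω t x y hX hq hf hZ _ _ (mul_nonneg (mul_nonneg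
      (Fn_nonneg M (ω t) _ (fun w => M.hC0 _ _ _) _ _ _) (lw_nonneg _ _ _ _ _))
      (Gn_nonneg M (ω t) _ (fun _ => zero_le_one) _ _ _)) h1
    refine h2.trans (le_of_eq ?_)
    ring
  · intro j s hj1 hj2
    have h1 := back M W ω t x y (X ^ 5 * q) hΛ (fun z => ind (z[j]? = some s))
      (fun z => ind (z[j - M.jc]? = some s))
      (fun z => ind_nonneg _) (fun z l hz => by
        rw [List.getElem?_append_right (by omega), hz])
    have e : a - M.jc = (j - M.jc) + 1 + (a - 1 - j) := by omega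
    have e2 : M.jc + (j - M.jc) = j := by omega
    rw [e, sum_one, e2] at h1
    have h2 := R_le M W ω t x y hX hq hf hZ _ _ (mul_nonneg (mul_nonneg
      (Fn_nonneg M (ω t) _ (fun _ => zero_le_one) _ _ _) (lw_nonneg _ _ _ _ _))
      (Gn_nonneg M (ω t) _ (fun w => M.hC0 _ _ _) _ _ _)) h1
    refine h2.trans (le_of_eq ?_)
    ring
  · intro j s s' hj
    have h1 := front M W ω t x y (X ^ 5 * q) hΛ
      (fun z => ind (z[j]? = some s ∧ z[j + 1]? = some s'))
      (fun z => ind_nonneg _) (fun z l hz => by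
        rw [List.getElem?_append_left (by omega), List.getElem?_append_left (by omega)])
    have e : M.jc + 1 = j + 2 + (M.jc - j - 1) := by omega
    rw [e, sum_two, Nat.zero_add] at h1
    have h2 := R_le M W ω t x y hX hq hf hZ _ _ (mul_nonneg (mul_nonneg (mul_nonneg (mul_nonneg
      (Fn_nonneg M (ω t) _ (fun w => M.hC0 _ _ _) _ _ _) (lw_nonneg _ _ _ _ _))
      (M.hC0 _ _ _)) (lw_nonneg _ _ _ _ _))
      (Gn_nonneg M (ω t) _ (fun _ => zero_le_one) _ _ _)) h1
    refine h2.trans (le_of_eq ?_)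
    ring
  · intro j s s' hj1 hj2
    have h1 := back M W ω t x y (X ^ 5 * q) hΛ
      (fun z => ind (z[j]? = some s ∧ z[j + 1]? = some s'))
      (fun z => ind (z[j - M.jc]? = some s ∧ z[j - M.jc + 1]? = some s'))
      (fun z => ind_nonneg _) (fun z l hz => by
        have e3 : j + 1 - M.jc = j - M.jc + 1 := by omega
        rw [List.getElem?_append_right (by omega), List.getElem?_append_right (by omega), hz, e3])
    have e : a - M.jc = (j - M.jc) + 2 + (a - 2 - j) := by omega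
    have e2 : M.jc + (j - M.jc) = j := by omega
    rw [e, sum_two, e2] at h1
    have h2 := R_le M W ω t x y hX hq hf hZ _ _ (mul_nonneg (mul_nonneg (mul_nonneg (mul_nonneg
      (Fn_nonneg M (ω t) _ (fun _ => zero_le_one) _ _ _) (lw_nonneg _ _ _ _ _))
      (M.hC0 _ _ _)) (lw_nonneg _ _ _ _ _))
      (Gn_nonneg M (ω t) _ (fun w => M.hC0 _ _ _) _ _ _)) h1
    refine h2.trans (le_of_eq ?_)
    ring

end Pool.Agent.Lib.MP_688fd0_co.TE.H67
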