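import Pool.Agent.Lib.MP_688fd0_co.TE.Iface3
import Pool.Agent.Lib.MP_688fd0_co.TE.H67.Rlaw

/-!
# Theorem E, module LOWB: the expected unclean weight
-/

set_option linter.unusedSectionVars false

namespace Pool.Agent.Lib.MP_688fd0_co.TE.H67

open Pool.Agent.Lib.MP_688fd0_co.TE

universe u v

theorem Ex_sumL {Ω S : Type*} [Fintype Ω] [Fintype S] (μ : Ω → ℝ) (n : ℕ)
    (G : Ω → List S → ℝ) :
    Ex μ (fun ω => sumL n (G ω)) = sumL n (fun z => Ex μ (fun ω => G ω z)) := by
  simp only [Ex]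
  rw [sumL_sum]
  exact Finset.sum_congr rfl fun ω _ => (sumL_mul _ _ _).symm

theorem Ex_mono {Ω : Type*} [Fintype Ω] {μ : Ω → ℝ} (hμ : ∀ ω, 0 ≤ μ ω) {f g : Ω → ℝ}
    (h : ∀ ω, f ω ≤ g ω) : Ex μ f ≤ Ex μ g :=
  Finset.sum_le_sum fun ω _ => mul_le_mul_of_nonneg_left (h ω) (hμ ω)

theorem Ex_sum {Ω κ : Type*} [Fintype Ω] (μ : Ω → ℝ) (s : Finset κ) (f : κ → Ω → ℝ) :
    Ex μ (fun ω => ∑ i ∈ s, f i ω) = ∑ i ∈ s, Ex μ (f i) := by
  simp only [Ex, Finset.mul_sum]
  exact Finset.sum_comm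

theorem Ex_mul {Ω : Type*} [Fintype Ω] (μ : Ω → ℝ) (c : ℝ) (f : Ω → ℝ) :
    Ex μ (fun ω => c * f ω) = c * Ex μ f := by
  simp only [Ex, Finset.mul_sum]
  exact Finset.sum_congr rfl fun ω _ => by ring

section

variable {V : Type u} {Val : Type v} [Fintype V] [Fintype Val] [DecidableEq V] {a : ℕ} (M : LM V Val a)

theorem law_zero (ω : Fld a V Val) (j : ℕ) (u : V) (e : Val) (h : val ω j u = some e)
    (hP : M.P u e = 0) : M.law ω = 0 := by
  unfold val at h
  split_ifs at h with hj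
  · unfold LM.law piW
    refine Finset.prod_eq_zero (Finset.mem_univ ⟨j, hj⟩) ?_
    refine Finset.prod_eq_zero (Finset.mem_univ u) ?_
    rw [h]
    exact hP

/-- the expectation with one more active site -/
theorem expv (hE : EXX_S.{u, v}) (z : List (V × Val)) (hz : z.length = a)
    (hP : ∀ s ∈ z, M.P s.1 s.2 ≠ 0) (j : ℕ) (hj : j < z.length) (u : V) (e : Val) :
    Ex M.law (fun ω => M.xw ω 0 z * ind (val ω j u = some e)) =
      if z[j].1 = u then ind (z[j].2 = e) else M.P u e := by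
  obtain ⟨_, _, h3⟩ := hE V Val a M
  have hzj : M.P z[j].1 z[j].2 ≠ 0 := hP _ (List.getElem_mem hj)
  by_cases h0 : M.P u e = 0
  · have h1 : Ex M.law (fun ω => M.xw ω 0 z * ind (val ω j u = some e)) = 0 := by
      refine Finset.sum_eq_zero fun ω _ => ?_
      dsimp only
      by_cases h : val ω j u = some e
      · rw [law_zero M ω j u e h h0, zero_mul]
      · rw [ind_not h, mul_zero, mul_zero]
    rw [h1]
    split_ifs with hu
    · rw [ind_not]
      rintro rfl
      exact hzj (by rw [hu]; exact h0)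
    · exact h0.symm
  · have hd : z = z.take j ++ [z[j]] ++ z.drop (j + 1) := by
      rw [List.append_assoc, List.singleton_append, List.getElem_cons_drop,
        List.take_append_drop]
    have hl : (z.take j).length = j := by rw [List.length_take]; omega
    have h4 := h3 (z.take j) [z[j]] (z.drop (j + 1)) [(u, e)] (by
        rw [List.length_take, List.length_drop, List.length_singleton]; omega) rfl
      (by rw [← hd]; exact hP) (by simpa using h0)
    rw [← hd, hl] at h4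
    have h5 : ∀ ω, M.xw ω 0 z * M.xw ω j [(u, e)] =
        (M.P u e)⁻¹ * (M.xw ω 0 z * ind (val ω j u = some e)) := by
      intro ω
      rw [LM.xw, LM.xw, mul_one, div_eq_mul_inv]
      ring
    simp only [h5] at h4
    rw [Ex_mul, inv_mul_eq_iff_eq_mul₀ h0] at h4
    rw [h4, LM.pf, LM.pf, mul_one]
    dsimp only
    split_ifs with hu
    · by_cases he : z[j].2 = e
      · rw [ind_of he, hu, he, mul_one_div, div_self h0]
      · rw [ind_not he, zero_div, mul_zero]
    · rw [mul_one]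

/-- one of the two vertices of a site -/
def vx (b : Bool) (s : V × Val) : V := if b then s.1 else M.ex s.1 s.2

theorem vx_or (b : Bool) (s : V × Val) : s.1 = vx M b s ∨ M.ex s.1 s.2 = vx M b s := by
  cases b
  · right; rfl
  · left; rfl

/-- the deterministic weight of a conflict -/
noncomputable def kp (z : List (V × Val)) (i j : ℕ) (hi : i < z.length) (b : Bool) (u : V)
    (e : Val) : ℝ :=
  ind (u = vx M b z[i] ∨ M.ex u e = vx M b z[i]) * ind (¬ (j = i ∧ (u, e) = z[i]))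

theorem kp_nonneg (z : List (V × Val)) (i j : ℕ) (hi : i < z.length) (b : Bool) (u : V)
    (e : Val) : 0 ≤ kp M z i j hi b u e := mul_nonneg (ind_nonneg _) (ind_nonneg _)

theorem expv_kp (hE : EXX_S.{u, v}) (z : List (V × Val)) (hz : z.length = a)
    (hP : ∀ s ∈ z, M.P s.1 s.2 ≠ 0) (hv : M.vdis z) (i j : ℕ) (hi : i < z.length)
    (hj : j < z.length) (b : Bool) (u : V) (e : Val) :
    Ex M.law (fun ω => M.xw ω 0 z * ind (val ω j u = some e)) * kp M z i j hi b u e ≤
      M.P u e * ind (u = vx M b z[i] ∨ M.ex u e = vx M b z[i]) := by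
  rw [expv M hE z hz hP j hj u e, kp]
  have h0 : 0 ≤ M.P u e * ind (u = vx M b z[i] ∨ M.ex u e = vx M b z[i]) :=
    mul_nonneg (M.hP0 _ _) (ind_nonneg _)
  split_ifs with hu
  · by_cases he : z[j].2 = e
    · have hk : ind (u = vx M b z[i] ∨ M.ex u e = vx M b z[i]) *
          ind (¬ (j = i ∧ (u, e) = z[i])) = 0 := by
        by_cases hw : u = vx M b z[i] ∨ M.ex u e = vx M b z[i]
        · have hs : z[j] = (u, e) := Prod.ext hu he
          have hw' : z[j].1 = vx M b z[i] ∨ M.ex z[j].1 z[j].2 = vx M b z[i] := by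
            rw [hs]; exact hw
          have hij : j = i := by
            rcases lt_trichotomy i j with h | h | h
            · exact absurd hw' (hv i j z[i] z[j] h (List.getElem?_eq_getElem hi)
                (List.getElem?_eq_getElem hj) _ (vx_or M b z[i]))
            · exact h.symm
            · exact absurd (vx_or M b z[i]) (hv j i z[j] z[i] h (List.getElem?_eq_getElem hj)
                (List.getElem?_eq_getElem hi) _ hw')
          rw [ind_not (p := ¬ (j = i ∧ (u, e) = z[i])), mul_zero]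
          subst hij
          exact not_not.2 ⟨rfl, hs.symm⟩
        · rw [ind_not hw, zero_mul]
      rw [hk, mul_zero]
      exact h0
    · rw [ind_not he, zero_mul]
      exact h0
  · refine mul_le_mul_of_nonneg_left ?_ (M.hP0 _ _)
    exact mul_le_of_le_one_right (ind_nonneg _) (ind_le_one _)

/-- the union bound -/
theorem union_bd (ω : Fld a V Val) (z : List (V × Val)) (hz : z.length = a) :
    ind (M.vdis z ∧ ∃ (i j : ℕ) (s : V × Val) (w u : V) (e : Val), z[i]? = some s ∧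
        (s.1 = w ∨ M.ex s.1 s.2 = w) ∧ val ω j u = some e ∧ (u = w ∨ M.ex u e = w) ∧
        ¬ (j = i ∧ (u, e) = s)) ≤
      ∑ p : Fin a × Fin a × Bool × V × Val, ind (val ω p.2.1 p.2.2.2.1 = some p.2.2.2.2) *
        kp M z p.1 p.2.1 (by rw [hz]; exact p.1.2) p.2.2.1 p.2.2.2.1 p.2.2.2.2 := by
  by_cases h : M.vdis z ∧ ∃ (i j : ℕ) (s : V × Val) (w u : V) (e : Val), z[i]? = some s ∧
        (s.1 = w ∨ M.ex s.1 s.2 = w) ∧ val ω j u = some e ∧ (u = w ∨ M.ex u e = w) ∧
        ¬ (j = i ∧ (u, e) = s)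
  · rw [ind_of h]
    obtain ⟨_, i, j, s, w, u, e, h1, h2, h3, h4, h5⟩ := h
    obtain ⟨hi, hs⟩ := List.getElem?_eq_some_iff.1 h1
    have hj : j < a := by
      by_contra hj
      rw [val, dif_neg hj] at h3
      exact absurd h3 (by simp)
    have hb : ∃ b : Bool, vx M b s = w := by
      rcases h2 with h2 | h2
      · exact ⟨true, h2⟩
      · exact ⟨false, h2⟩
    obtain ⟨b, hb⟩ := hb
    have hterm := Finset.single_le_sum (s := (Finset.univ : Finset (Fin a × Fin a × Bool × V × Val)))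
      (f := fun p => ind (val ω p.2.1 p.2.2.2.1 = some p.2.2.2.2) *
        kp M z p.1 p.2.1 (by rw [hz]; exact p.1.2) p.2.2.1 p.2.2.2.1 p.2.2.2.2)
      (fun p _ => mul_nonneg (ind_nonneg _) (kp_nonneg _ _ _ _ _ _ _ _))
      (Finset.mem_univ (⟨i, by omega⟩, ⟨j, hj⟩, b, u, e))
    refine le_trans (le_of_eq ?_) hterm
    dsimp only
    rw [kp, hs, hb, ind_of h3, ind_of h4, ind_of h5]
    norm_num
  · rw [ind_not h]
    exact Finset.sum_nonneg fun p _ => mul_nonneg (ind_nonneg _) (kp_nonneg _ _ _ _ _ _ _ _)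

/-- the bound for a fixed walk -/
theorem fixed_bd (hE : EXX_S.{u, v}) (z : List (V × Val)) (hz : z.length = a)
    (hP : ∀ s ∈ z, M.P s.1 s.2 ≠ 0) :
    Ex M.law (fun ω => M.xw ω 0 z * ind (M.vdis z ∧
      ∃ (i j : ℕ) (s : V × Val) (w u : V) (e : Val), z[i]? = some s ∧
        (s.1 = w ∨ M.ex s.1 s.2 = w) ∧ val ω j u = some e ∧ (u = w ∨ M.ex u e = w) ∧
        ¬ (j = i ∧ (u, e) = s))) ≤ 2 * (a : ℝ) ^ 2 * M.pt := by
  have hlaw : ∀ ω, 0 ≤ M.law ω := (hE V Val a M).1.nn
  have hxw : ∀ (ω : Fld a V Val) (l : List (V × Val)) (j : ℕ), 0 ≤ M.xw ω j l := by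
    intro ω l
    induction l with
    | nil => intro j; exact zero_le_one
    | cons s l ih => intro j; exact mul_nonneg (div_nonneg (ind_nonneg _) (M.hP0 _ _)) (ih _)
  have hpt : 0 ≤ M.pt ∨ IsEmpty V := by
    by_cases hV : Nonempty V
    · left
      obtain ⟨w⟩ := hV
      exact le_trans (Finset.sum_nonneg fun u _ => Finset.sum_nonneg fun e _ =>
        mul_nonneg (M.hP0 _ _) (ind_nonneg _)) (M.hpt w)
    · right
      exact not_nonempty_iff.1 hV
  by_cases hv : M.vdis z
  · have h1 : Ex M.law (fun ω => M.xw ω 0 z * ind (M.vdis z ∧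
        ∃ (i j : ℕ) (s : V × Val) (w u : V) (e : Val), z[i]? = some s ∧
        (s.1 = w ∨ M.ex s.1 s.2 = w) ∧ val ω j u = some e ∧ (u = w ∨ M.ex u e = w) ∧
        ¬ (j = i ∧ (u, e) = s))) ≤
        Ex M.law (fun ω => ∑ p : Fin a × Fin a × Bool × V × Val,
          kp M z p.1 p.2.1 (by rw [hz]; exact p.1.2) p.2.2.1 p.2.2.2.1 p.2.2.2.2 *
            (M.xw ω 0 z * ind (val ω p.2.1 p.2.2.2.1 = some p.2.2.2.2))) := by
      refine Ex_mono hlaw fun ω => ?_
      refine (mul_le_mul_of_nonneg_left (union_bd M ω z hz) (hxw ω z 0)).trans (le_of_eq ?_)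
      rw [Finset.mul_sum]
      exact Finset.sum_congr rfl fun p _ => by ring
    refine h1.trans ?_
    rw [Ex_sum]
    have h2 : ∀ p : Fin a × Fin a × Bool × V × Val, Ex M.law (fun ω =>
        kp M z p.1 p.2.1 (by rw [hz]; exact p.1.2) p.2.2.1 p.2.2.2.1 p.2.2.2.2 *
            (M.xw ω 0 z * ind (val ω p.2.1 p.2.2.2.1 = some p.2.2.2.2))) ≤
        M.P p.2.2.2.1 p.2.2.2.2 *
          ind (p.2.2.2.1 = vx M p.2.2.1 (z[(p.1 : ℕ)]'(by rw [hz]; exact p.1.2)) ∨
            M.ex p.2.2.2.1 p.2.2.2.2 = vx M p.2.2.1 (z[(p.1 : ℕ)]'(by rw [hz]; exact p.1.2))) := by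
      intro p
      rw [Ex_mul, mul_comm]
      exact expv_kp M hE z hz hP hv p.1 p.2.1 _ (by rw [hz]; exact p.2.1.2) _ _ _
    refine (Finset.sum_le_sum fun p _ => h2 p).trans ?_
    rw [Fintype.sum_prod_type]
    have h3 : ∀ i : Fin a, (∑ p : Fin a × Bool × V × Val, M.P p.2.2.1 p.2.2.2 *
        ind (p.2.2.1 = vx M p.2.1 (z[(i : ℕ)]'(by rw [hz]; exact i.2)) ∨
          M.ex p.2.2.1 p.2.2.2 = vx M p.2.1 (z[(i : ℕ)]'(by rw [hz]; exact i.2)))) ≤
        (a : ℝ) * (2 * M.pt) := by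
      intro i
      rw [Fintype.sum_prod_type]
      have h4 : ∀ j : Fin a, (∑ p : Bool × V × Val, M.P p.2.1 p.2.2 *
          ind (p.2.1 = vx M p.1 (z[(i : ℕ)]'(by rw [hz]; exact i.2)) ∨
            M.ex p.2.1 p.2.2 = vx M p.1 (z[(i : ℕ)]'(by rw [hz]; exact i.2)))) ≤
          2 * M.pt := by
        intro j
        rw [Fintype.sum_prod_type, Fintype.sum_bool]
        have h5 : ∀ b : Bool, (∑ p : V × Val, M.P p.1 p.2 *
            ind (p.1 = vx M b (z[(i : ℕ)]'(by rw [hz]; exact i.2)) ∨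
              M.ex p.1 p.2 = vx M b (z[(i : ℕ)]'(by rw [hz]; exact i.2)))) ≤ M.pt := by
          intro b
          rw [Fintype.sum_prod_type]
          exact M.hpt _
        have h6 := h5 true
        have h7 := h5 false
        linarith
      refine (Finset.sum_le_sum fun j _ => h4 j).trans ?_
      rw [Finset.sum_const, Finset.card_univ, Fintype.card_fin, nsmul_eq_mul]
    refine (Finset.sum_le_sum fun i _ => h3 i).trans (le_of_eq ?_)
    rw [Finset.sum_const, Finset.card_univ, Fintype.card_fin, nsmul_eq_mul]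
    ring
  · have h1 : Ex M.law (fun ω => M.xw ω 0 z * ind (M.vdis z ∧
        ∃ (i j : ℕ) (s : V × Val) (w u : V) (e : Val), z[i]? = some s ∧
        (s.1 = w ∨ M.ex s.1 s.2 = w) ∧ val ω j u = some e ∧ (u = w ∨ M.ex u e = w) ∧
        ¬ (j = i ∧ (u, e) = s))) = 0 := by
      refine Finset.sum_eq_zero fun ω _ => ?_
      dsimp only
      rw [ind_not (fun h => hv h.1), mul_zero, mul_zero]
    rw [h1]
    rcases hpt with hpt | hV
    · positivity
    · exfalso
      have ha : 0 < a := by have := M.hjc; omega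
      rw [← hz] at ha
      exact hV.false (z[0]'ha).1

end

/-- Module LOWB. -/
theorem lowb (hE : EXX_S.{u, v}) : LOWB_S.{u, v} := by
  intro V Val _ _ _ a M x y hpos
  rw [Ex_sumL]
  have hpw0 : ∀ (l : List (V × Val)) (j : ℕ) (x y : V), (∃ s ∈ l, M.P s.1 s.2 = 0) →
      M.pw j x l y = 0 := by
    intro l
    induction l with
    | nil => intro j x y h; obtain ⟨s, hs, _⟩ := h; exact absurd hs (by simp)
    | cons s l ih =>
      rintro j x y ⟨s', hs', h0⟩
      rcases List.mem_cons.1 hs' with rfl | h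
      · rw [LM.pw, hpos j _ _ h0, mul_zero, zero_mul]
      · rw [LM.pw, ih _ _ _ ⟨s', h, h0⟩, mul_zero]
  have hpw : ∀ (l : List (V × Val)) (j : ℕ) (x y : V), 0 ≤ M.pw j x l y := by
    intro l
    induction l with
    | nil => intro j x y; exact M.hC0 _ _ _
    | cons s l ih =>
      intro j x y
      exact mul_nonneg (mul_nonneg (M.hC0 _ _ _) (M.hk0 _ _ _)) (ih _ _ _)
  rw [LM.fk, ← sumL_mul]
  refine sumL_mono _ _ _ fun z hz => ?_
  simp only [mul_assoc]
  rw [Ex_mul]
  by_cases h0 : ∃ s ∈ z, M.P s.1 s.2 = 0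
  · rw [hpw0 z 0 x y h0]
    simp
  · have hP : ∀ s ∈ z, M.P s.1 s.2 ≠ 0 := fun s hs h => h0 ⟨s, hs, h⟩
    have h1 := mul_le_mul_of_nonneg_left (fixed_bd M hE z hz hP) (hpw z 0 x y)
    refine h1.trans (le_of_eq ?_)
    ring

end Pool.Agent.Lib.MP_688fd0_co.TE.H67
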